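import Mathlib

namespace Pool.Agent.Results.MP_1fa864_co.Tree

open Finset

section defs
variable {V : Type} [Fintype V] [DecidableEq V] (G : SimpleGraph V) [DecidableRel G.Adj]

/-- `f(N[v])`, the sum of `f` over the closed neighbourhood of `v`. -/
def nb (f : V → ℤ) (v : V) : ℤ := f v + ∑ u ∈ G.neighborFinset v, f u

/-- Signed dominating function. -/
def IsSDF (f : V → ℤ) : Prop := (∀ v, f v = -1 ∨ f v = 1) ∧ ∀ v, 1 ≤ nb G f v

/-- Minimal signed dominating function. -/
def IsMinimalSDF (f : V → ℤ) : Prop :=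
  IsSDF G f ∧ ¬ ∃ g, IsSDF G g ∧ g ≠ f ∧ ∀ v, g v ≤ f v

end defs

abbrev B3 := Bool × Bool × Bool

def sg (b : Bool) : ℤ := if b then 1 else -1

def ind (b : Bool) : ℤ := if b then 1 else 0

def psi : B3 → B3 → ℤ
  | (true, true, true), (true, true, _) => -4
  | (true, true, true), (true, false, _) => -2
  | (true, true, true), (false, true, _) => -20
  | (true, true, true), (false, false, _) => -8
  | (true, true, false), (true, true, _) => -8
  | (true, true, false), (true, false, _) => -16
  | (true, true, false), (false, true, _) => -8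
  | (true, true, false), (false, false, _) => -16
  | (true, false, true), (true, true, _) => -16
  | (true, false, true), (true, false, _) => -16
  | (true, false, true), (false, true, _) => -20
  | (true, false, true), (false, false, _) => -20
  | (true, false, false), (true, true, _) => -16
  | (true, false, false), (true, false, _) => -16
  | (true, false, false), (false, true, _) => -20
  | (true, false, false), (false, false, _) => -20
  | (false, true, true), (true, true, _) => -10
  | (false, true, true), (true, false, _) => 2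
  | (false, true, true), (false, true, _) => -38
  | (false, true, true), (false, false, _) => -26
  | (false, true, false), (true, true, true) => 2
  | (false, true, false), (true, true, false) => -10
  | (false, true, false), (true, false, true) => -14
  | (false, true, false), (true, false, false) => -26
  | (false, true, false), (false, true, true) => -14
  | (false, true, false), (false, true, false) => -26
  | (false, true, false), (false, false, true) => -14
  | (false, true, false), (false, false, false) => -26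
  | (false, false, true), (true, true, _) => -12
  | (false, false, true), (true, false, _) => -28
  | (false, false, true), (false, true, _) => -40
  | (false, false, true), (false, false, _) => -28
  | (false, false, false), (true, true, _) => -28
  | (false, false, false), (true, false, _) => -44
  | (false, false, false), (false, true, _) => -28
  | (false, false, false), (false, false, _) => -44

lemma loc1 (x p : B3) (n : B3 → ℕ)
    (hF : 1 ≤ sg x.1 + (∑ k, n k * sg k.1 + sg p.1))
    (hG : 1 ≤ sg x.2.1 + (∑ k, n k * sg k.2.1 + sg p.2.1))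
    (hT : x.2.2 = true ↔ sg x.2.1 + (∑ k, n k * sg k.2.1 + sg p.2.1) ≤ 2)
    (hC : x.2.1 = true → 1 ≤ ind x.2.2 + (∑ k, n k * ind k.2.2 + ind p.2.2)) :
    7 * (sg x.2.1 - sg x.1) - 4 + ∑ k, n k * psi k x ≤ psi x p := by
  obtain ⟨a, b, t⟩ := x
  obtain ⟨c, d, e⟩ := p
  simp only [Fintype.sum_prod_type, Fintype.sum_bool] at *
  cases a <;> cases b <;> cases t <;> cases c <;> cases d <;> cases e <;>
    simp [sg, ind, psi] at * <;> omega

lemma loc0 (x : B3) (n : B3 → ℕ)
    (hF : 1 ≤ sg x.1 + (∑ k, n k * sg k.1 + 0))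
    (hG : 1 ≤ sg x.2.1 + (∑ k, n k * sg k.2.1 + 0))
    (hT : x.2.2 = true ↔ sg x.2.1 + (∑ k, n k * sg k.2.1 + 0) ≤ 2)
    (hC : x.2.1 = true → 1 ≤ ind x.2.2 + (∑ k, n k * ind k.2.2 + 0)) :
    7 * (sg x.2.1 - sg x.1) - 4 + ∑ k, n k * psi k x ≤ 0 := by
  obtain ⟨a, b, t⟩ := x
  simp only [Fintype.sum_prod_type, Fintype.sum_bool] at *
  cases a <;> cases b <;> cases t <;> simp [sg, ind, psi] at * <;> omega

lemma fib {V : Type} (S : Finset V) (κ : V → B3) (h : B3 → ℤ) :
    ∑ u ∈ S, h (κ u) = ∑ k, ((S.filter (fun u => κ u = k)).card : ℤ) * h k := by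
  rw [← sum_fiberwise (s := S) (g := κ)]
  apply sum_congr rfl
  intro k _
  rw [sum_congr rfl (g := fun _ => h k) (fun u hu => by rw [(mem_filter.1 hu).2]), sum_const,
    nsmul_eq_mul]

lemma loc {V : Type} (κ : V → B3) (v : V) (D U : Finset V) (hU : U.card ≤ 1)
    (hF : 1 ≤ sg (κ v).1 + (∑ u ∈ D, sg (κ u).1 + ∑ u ∈ U, sg (κ u).1))
    (hG : 1 ≤ sg (κ v).2.1 + (∑ u ∈ D, sg (κ u).2.1 + ∑ u ∈ U, sg (κ u).2.1))
    (hT : (κ v).2.2 = true ↔ sg (κ v).2.1 + (∑ u ∈ D, sg (κ u).2.1 + ∑ u ∈ U, sg (κ u).2.1) ≤ 2)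
    (hC : (κ v).2.1 = true → 1 ≤ ind (κ v).2.2 + (∑ u ∈ D, ind (κ u).2.2 + ∑ u ∈ U, ind (κ u).2.2)) :
    7 * (sg (κ v).2.1 - sg (κ v).1) - 4 + ∑ u ∈ D, psi (κ u) (κ v) ≤ ∑ u ∈ U, psi (κ v) (κ u) := by
  rw [fib D κ (fun k => sg k.1)] at hF
  rw [fib D κ (fun k => sg k.2.1)] at hG hT
  rw [fib D κ (fun k => ind k.2.2)] at hC
  rw [fib D κ (fun k => psi k (κ v))]
  have hU2 : U = ∅ ∨ ∃ p, U = {p} := by
    rcases Nat.le_one_iff_eq_zero_or_eq_one.1 hU with h | h
    exacts [Or.inl (card_eq_zero.1 h), Or.inr (card_eq_one.1 h)]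
  rcases hU2 with rfl | ⟨p, rfl⟩
  · rw [sum_empty] at *
    exact loc0 _ _ hF hG hT hC
  · rw [sum_singleton] at *
    exact loc1 _ _ _ hF hG hT hC

variable {V : Type} [Fintype V] [DecidableEq V] (G : SimpleGraph V) [DecidableRel G.Adj]

lemma up_unique (hG : G.IsTree) (r v u w : V) (hu : G.Adj u v) (hw : G.Adj w v)
    (e1 : G.dist r v = G.dist r u + 1) (e2 : G.dist r v = G.dist r w + 1) : u = w := by
  obtain ⟨p, hp⟩ := (hG.connected r u).exists_walk_length_eq_dist
  obtain ⟨q, hq⟩ := (hG.connected r w).exists_walk_length_eq_dist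
  have h1 : (p.concat hu).IsPath :=
    SimpleGraph.Walk.isPath_of_length_eq_dist _ (by rw [SimpleGraph.Walk.length_concat, hp, e1])
  have h2 : (q.concat hw).IsPath :=
    SimpleGraph.Walk.isPath_of_length_eq_dist _ (by rw [SimpleGraph.Walk.length_concat, hq, e2])
  have h3 := congrArg Subtype.val ((hG.isAcyclic.subsingleton_path r v).elim ⟨_, h1⟩ ⟨_, h2⟩)
  exact (SimpleGraph.Walk.concat_inj h3).1

lemma cover (g : V → ℤ) (hg : IsMinimalSDF G g) (v : V) (hv : g v = 1) :
    nb G g v ≤ 2 ∨ ∃ u ∈ G.neighborFinset v, nb G g u ≤ 2 := by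
  by_contra hc
  push Not at hc
  apply hg.2
  refine ⟨fun u => g u - if u = v then 2 else 0, ⟨fun u => ?_, fun u => ?_⟩, fun e => ?_, fun u => ?_⟩
  · by_cases h : u = v
    · left; simp [h, hv]
    · simpa [h] using hg.1.1 u
  · have h0 := hg.1.2 u
    have e : nb G (fun u => g u - if u = v then 2 else 0) u =
        nb G g u - (if u = v then 2 else 0) - if v ∈ G.neighborFinset u then 2 else 0 := by
      simp only [nb, sum_sub_distrib, sum_ite_eq']
      ring
    rw [e]
    by_cases h : u = v
    · subst h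
      have := hc.1
      simp
      omega
    · by_cases h2 : v ∈ G.neighborFinset u
      · have := hc.2 u (by simpa [G.adj_comm] using h2)
        simp only [h, h2, if_true, if_false]
        omega
      · simp only [h, h2, if_false]
        omega
  · have := congrFun e v
    simp at this
  · beta_reduce
    split_ifs <;> omega

lemma main (hT : G.IsTree) (f g : V → ℤ) (hf : IsSDF G f) (hg : IsMinimalSDF G g) :
    7 * (∑ v, g v - ∑ v, f v) ≤ 4 * (Fintype.card V : ℤ) := by
  obtain ⟨r⟩ := hT.connected.nonempty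
  let κ : V → B3 := fun v => (decide (f v = 1), decide (g v = 1), decide (nb G g v ≤ 2))
  have k1 : ∀ v, sg (κ v).1 = f v := fun v => by
    rcases hf.1 v with h | h <;> simp [κ, sg, h]
  have k2 : ∀ v, sg (κ v).2.1 = g v := fun v => by
    rcases hg.1.1 v with h | h <;> simp [κ, sg, h]
  let D : V → Finset V := fun v => univ.filter (fun u => G.Adj v u ∧ G.dist r u = G.dist r v + 1)
  let U : V → Finset V := fun v => univ.filter (fun u => G.Adj u v ∧ G.dist r v = G.dist r u + 1)
  have split : ∀ v (h : V → ℤ), ∑ u ∈ G.neighborFinset v, h u = ∑ u ∈ D v, h u + ∑ u ∈ U v, h u := by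
    intro v h
    rw [← sum_union]
    · congr 1
      ext u
      simp only [D, U, SimpleGraph.mem_neighborFinset, mem_union, mem_filter, mem_univ, true_and]
      constructor
      · intro a
        rcases hT.dist_eq_dist_add_one_of_adj r a with e | e
        · exact Or.inr ⟨a.symm, e⟩
        · exact Or.inl ⟨a, e⟩
      · rintro (a | a)
        exacts [a.1, a.1.symm]
    · rw [disjoint_left]
      intro u h1 h2
      have := (mem_filter.1 h1).2.2
      have := (mem_filter.1 h2).2.2
      omega
  have L : ∀ v, 7 * (g v - f v) - 4 + ∑ u ∈ D v, psi (κ u) (κ v) ≤ ∑ u ∈ U v, psi (κ v) (κ u) := by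
    intro v
    rw [← k1 v, ← k2 v]
    apply loc κ v
    · rw [card_le_one]
      intro a ha b hb
      have ha := (mem_filter.1 ha).2
      have hb := (mem_filter.1 hb).2
      exact up_unique G hT r v a b ha.1 hb.1 ha.2 hb.2
    · simp only [k1]
      rw [← split]; exact hf.2 v
    · simp only [k2]
      rw [← split]; exact hg.1.2 v
    · simp only [k2]
      rw [← split]
      exact decide_eq_true_iff
    · intro hv
      rw [← split v (fun u => ind (κ u).2.2)]
      have nn : ∀ u, 0 ≤ ind (κ u).2.2 := fun u => by unfold ind; split_ifs <;> omega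
      have s0 := sum_nonneg (s := G.neighborFinset v) (fun u _ => nn u)
      rcases cover G g hg v (of_decide_eq_true hv) with h | ⟨u, hu, h⟩
      · have : ind (κ v).2.2 = 1 := by simp [κ, ind, h]
        omega
      · have h1 : ind (κ u).2.2 = 1 := by simp [κ, ind, h]
        have h2 := single_le_sum (f := fun u => ind (κ u).2.2) (fun u _ => nn u) hu
        have := nn v
        beta_reduce at h2
        omega
  have sw : ∑ v, ∑ u ∈ D v, psi (κ u) (κ v) = ∑ v, ∑ u ∈ U v, psi (κ v) (κ u) := by
    simp only [D, U, sum_filter]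
    exact sum_comm
  have tot := sum_le_sum (s := univ) (fun v _ => L v)
  rw [sum_add_distrib, sw, sum_sub_distrib, ← mul_sum, sum_sub_distrib, sum_const, card_univ,
    nsmul_eq_mul] at tot
  omega

theorem result (V : Type) [Fintype V] [DecidableEq V] (T : SimpleGraph V) [DecidableRel T.Adj]
    (hT : T.IsTree) :
    (∀ f g, IsSDF T f → IsMinimalSDF T g →
      (((∑ v, g v : ℤ) : ℚ) - ((∑ v, f v : ℤ) : ℚ)) / Fintype.card V ≤ 4 / 7) ∧
    ∀ γ Γ : ℤ, IsLeast {w | ∃ f, IsSDF T f ∧ ∑ v, f v = w} γ →
      IsGreatest {w | ∃ g, IsMinimalSDF T g ∧ ∑ v, g v = w} Γ →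
      ((Γ : ℚ) - γ) / Fintype.card V ≤ 4 / 7 := by
  have h : ∀ f g, IsSDF T f → IsMinimalSDF T g →
      (((∑ v, g v : ℤ) : ℚ) - ((∑ v, f v : ℤ) : ℚ)) / Fintype.card V ≤ 4 / 7 := by
    intro f g hf hg
    have := hT.connected.nonempty
    have hp : (0 : ℚ) < Fintype.card V := by exact_mod_cast Fintype.card_pos
    have h1 : (7 : ℚ) * (((∑ v, g v : ℤ) : ℚ) - ((∑ v, f v : ℤ) : ℚ)) ≤ 4 * Fintype.card V := by
      exact_mod_cast main T hT f g hf hg
    rw [div_le_iff₀ hp]
    linarith
  refine ⟨h, ?_⟩
  rintro _ _ ⟨⟨f, hf, rfl⟩, -⟩ ⟨⟨g, hg, rfl⟩, -⟩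
  exact h f g hf hg

end Pool.Agent.Results.MP_1fa864_co.Tree
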